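import Pool.Agent.helper52.EU.SpecK
import Pool.Agent.helper31.FI.SIZ

set_option autoImplicit false

open Finset

namespace Pool.Agent.EU

open Pool.Agent.FI Pool.Agent.HK Pool.Agent.BP Pool.Agent.YB
open Pool.Agent.CH (nit rgh)

/-! ## Cells -/

theorem CSP_FF (z : ℤ × ℤ) (u : ℕ) : z ∈ FF u ↔ Fd z ∧ nn z ≤ u := by
  classical
  constructor
  · intro h
    unfold FF at h
    exact (mem_filter.mp h).2
  · rintro ⟨h, h'⟩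
    obtain ⟨-, -, -, h4, -⟩ := Pool.Agent.FI.SIZ z h
    unfold FF at h4 ⊢
    rw [mem_filter, mem_product, mem_Icc, mem_Icc] at h4 ⊢
    obtain ⟨⟨⟨a1, a2⟩, a3, a4⟩, -⟩ := h4
    have : (nn z : ℤ) ≤ u := by exact_mod_cast h'
    exact ⟨⟨⟨by linarith, by linarith⟩, by linarith, by linarith⟩, h, h'⟩

noncomputable def CSP_hi (P j : ℕ) : ℕ := ⌊(2 : ℝ) ^ ((j : ℝ) / P)⌋₊
noncomputable def CSP_lo (P j : ℕ) : ℕ := ⌊(2 : ℝ) ^ (((j : ℝ) - 1) / P)⌋₊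
noncomputable def CSP_cx (P n : ℕ) : ℕ := ⌈(P : ℝ) * Real.logb 2 n⌉₊

theorem CSP_ceil (x : ℝ) (hx : 0 ≤ x) (j : ℕ) : ⌈x⌉₊ = j ↔ (j : ℝ) - 1 < x ∧ x ≤ j := by
  constructor
  · rintro rfl
    exact ⟨by linarith [Nat.ceil_lt_add_one hx], Nat.le_ceil x⟩
  · rintro ⟨h1, h2⟩
    refine le_antisymm (Nat.ceil_le.mpr h2) ?_
    rcases j with _ | k
    · exact Nat.zero_le _
    · have : k < ⌈x⌉₊ := Nat.lt_ceil.mpr (by push_cast at h1; linarith)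
      exact this

theorem CSP_cx_iff {P n : ℕ} (hP : 1 ≤ P) (hn : 1 ≤ n) (j : ℕ) : CSP_cx P n = j ↔
    (2 : ℝ) ^ (((j : ℝ) - 1) / P) < n ∧ (n : ℝ) ≤ (2 : ℝ) ^ ((j : ℝ) / P) := by
  have hP' : (0 : ℝ) < P := by exact_mod_cast hP
  have hn' : (1 : ℝ) ≤ n := by exact_mod_cast hn
  have hn0 : (0 : ℝ) < n := by linarith
  have hl : 0 ≤ Real.logb 2 n := Real.logb_nonneg (by norm_num) hn'
  rw [CSP_cx, CSP_ceil _ (by positivity), ← Real.lt_logb_iff_rpow_lt (by norm_num) hn0,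
    ← Real.logb_le_iff_le_rpow (by norm_num) hn0, div_lt_iff₀' hP', le_div_iff₀' hP']

theorem CSP_cell {P n : ℕ} (hP : 1 ≤ P) (hn : 1 ≤ n) (j : ℕ) :
    CSP_cx P n = j ↔ CSP_lo P j < n ∧ n ≤ CSP_hi P j := by
  rw [CSP_cx_iff hP hn, CSP_lo, CSP_hi, Nat.floor_lt (by positivity), Nat.le_floor_iff (by positivity)]

theorem CSP_set {P b j : ℕ} (hP : 1 ≤ P) (h : CSP_hi P j ≤ b) :
    {z ∈ FF b | CSP_cx P (nn z) = j} = {z ∈ FF (CSP_hi P j) | CSP_lo P j < nn z} := by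
  ext z
  rw [mem_filter, mem_filter, CSP_FF, CSP_FF]
  constructor
  · rintro ⟨⟨h1, h2⟩, h3⟩
    have := (CSP_cell hP (Pool.Agent.FI.SIZ z h1).2.2.1 j).mp h3
    exact ⟨⟨h1, this.2⟩, this.1⟩
  · rintro ⟨⟨h1, h2⟩, h3⟩
    exact ⟨⟨h1, h2.trans h⟩, (CSP_cell hP (Pool.Agent.FI.SIZ z h1).2.2.1 j).mpr ⟨h3, h2⟩⟩

/-- `2^(1/P)` -/
theorem CSP_root {P : ℕ} (hP : 2 ≤ P) : 1 ≤ (2 : ℝ) ^ (1 / (P : ℝ)) ∧ (2 : ℝ) ^ (1 / (P : ℝ)) ≤ 1 + 1 / P ∧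
    (2 : ℝ) ^ (3 / (P : ℝ)) = ((2 : ℝ) ^ (1 / (P : ℝ))) ^ 3 ∧ 1 ≤ (2 : ℝ) ^ (3 / (P : ℝ)) ∧
    (2 : ℝ) ^ (3 / (P : ℝ)) - 1 ≤ 7 / P := by
  have hP' : (2 : ℝ) ≤ P := by exact_mod_cast hP
  have hP0 : (0 : ℝ) < P := by linarith
  have h1 : 1 ≤ (2 : ℝ) ^ (1 / (P : ℝ)) := Real.one_le_rpow (by norm_num) (by positivity)
  have h2 : (2 : ℝ) ^ (1 / (P : ℝ)) ≤ 1 + 1 / P := by
    have h := rpow_one_add_le_one_add_mul_self (s := 1) (p := 1 / (P : ℝ)) (by norm_num) (by positivity)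
      (by rw [div_le_one hP0]; linarith)
    have e : (1 : ℝ) + 1 = 2 := by norm_num
    rw [e, mul_one] at h
    exact h
  have h3 : (2 : ℝ) ^ (3 / (P : ℝ)) = ((2 : ℝ) ^ (1 / (P : ℝ))) ^ 3 := by
    rw [← Real.rpow_natCast, ← Real.rpow_mul (by norm_num)]
    congr 1
    push_cast
    ring
  have h4 : 1 ≤ (2 : ℝ) ^ (3 / (P : ℝ)) := Real.one_le_rpow (by norm_num) (by positivity)
  refine ⟨h1, h2, h3, h4, ?_⟩
  rw [h3]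
  have h5 : ((2 : ℝ) ^ (1 / (P : ℝ))) ^ 3 ≤ (1 + 1 / P) ^ 3 := pow_le_pow_left₀ (by positivity) h2 3
  have h6 : (0 : ℝ) < 1 / P := by positivity
  have h7 : 1 / (P : ℝ) ≤ 1 / 2 := one_div_le_one_div_of_le (by norm_num) hP'
  have h8 : 7 / (P : ℝ) = 7 * (1 / P) := by ring
  rw [h8]
  nlinarith [mul_nonneg h6.le h6.le]

theorem CSP_Cel {P j : ℕ} (hP : 2 ≤ P) (h : CSP_lo P j < CSP_hi P j) : Cel (CSP_lo P j) (CSP_hi P j) := by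
  have hP' : (2 : ℝ) ≤ P := by exact_mod_cast hP
  have hP0 : (0 : ℝ) < P := by linarith
  refine ⟨h, ?_⟩
  rcases Nat.eq_zero_or_pos j with rfl | hj
  · right
    constructor
    · rw [CSP_lo, Nat.floor_eq_zero]
      refine Real.rpow_lt_one_of_one_lt_of_neg (by norm_num) ?_
      rw [Nat.cast_zero, zero_sub]
      exact div_neg_of_neg_of_pos (by norm_num) hP0
    · rw [CSP_hi, Nat.cast_zero, zero_div, Real.rpow_zero, Nat.floor_one]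
  · left
    have hj' : (1 : ℝ) ≤ j := by exact_mod_cast hj
    obtain ⟨y, hy⟩ : ∃ y : ℝ, y = (2 : ℝ) ^ (((j : ℝ) - 1) / P) := ⟨_, rfl⟩
    have hy1 : 1 ≤ y := by
      rw [hy]
      exact Real.one_le_rpow (by norm_num) (div_nonneg (by linarith) hP0.le)
    have e : (2 : ℝ) ^ ((j : ℝ) / P) = (2 : ℝ) ^ (1 / (P : ℝ)) * y := by
      rw [hy, ← Real.rpow_add (by norm_num)]
      congr 1
      ring
    have hlo : CSP_lo P j = ⌊y⌋₊ := by rw [CSP_lo, ← hy]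
    have hk : y < (CSP_lo P j : ℝ) + 1 := by
      rw [hlo]
      exact Nat.lt_floor_add_one y
    have hk1 : 1 ≤ CSP_lo P j := by
      rw [hlo]
      exact Nat.le_floor (by exact_mod_cast hy1)
    have hk1' : (1 : ℝ) ≤ (CSP_lo P j : ℝ) := by exact_mod_cast hk1
    have h2 : ((2 : ℝ) ^ (1 / (P : ℝ))) ^ 2 ≤ 2 := by
      rw [← Real.rpow_natCast, ← Real.rpow_mul (by norm_num)]
      calc (2 : ℝ) ^ (1 / (P : ℝ) * ((2 : ℕ) : ℝ)) ≤ (2 : ℝ) ^ (1 : ℝ) := by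
            refine Real.rpow_le_rpow_of_exponent_le (by norm_num) ?_
            push_cast
            rw [one_div, inv_mul_le_iff₀ hP0]
            linarith
        _ = 2 := Real.rpow_one 2
    have h3 : (2 : ℝ) ^ ((j : ℝ) / P) < 2 * (CSP_lo P j : ℝ) + 1 := by
      refine lt_of_pow_lt_pow_left₀ 2 (by positivity) ?_
      rw [e, mul_pow]
      have h4 : y ^ 2 < ((CSP_lo P j : ℝ) + 1) ^ 2 := pow_lt_pow_left₀ hk (by linarith) (by norm_num)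
      have h5 : ((2 : ℝ) ^ (1 / (P : ℝ))) ^ 2 * y ^ 2 ≤ 2 * y ^ 2 := mul_le_mul_of_nonneg_right h2 (by positivity)
      nlinarith
    have h4 : CSP_hi P j < 2 * CSP_lo P j + 1 := by
      rw [CSP_hi, Nat.floor_lt (by positivity)]
      push_cast
      exact h3
    omega

/-- good triples of cells -/
def CSP_Gd (P a b s : ℕ) : Prop := (a : ℝ) ≤ (2 : ℝ) ^ (((s : ℝ) - 3) / P) ∧ (2 : ℝ) ^ ((s : ℝ) / P) ≤ b

open scoped Classical in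
noncomputable def CSP_Ga (P a b : ℕ) : Finset (ℕ × ℕ × ℕ) :=
  {j ∈ range (⌊(P : ℝ) * Real.logb 2 b⌋₊ + 1) ×ˢ range (⌊(P : ℝ) * Real.logb 2 b⌋₊ + 1) ×ˢ
    range (⌊(P : ℝ) * Real.logb 2 b⌋₊ + 1) | CSP_Gd P a b (j.1 + j.2.1 + j.2.2)}

theorem CSP_memGa {P a b : ℕ} (hP : 1 ≤ P) (hb : 1 ≤ b) (j : ℕ × ℕ × ℕ) :
    j ∈ CSP_Ga P a b ↔ CSP_Gd P a b (j.1 + j.2.1 + j.2.2) := by
  classical
  rw [CSP_Ga, mem_filter]
  refine ⟨fun h => h.2, fun h => ⟨?_, h⟩⟩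
  have hP' : (0 : ℝ) < P := by exact_mod_cast hP
  have hb' : (1 : ℝ) ≤ b := by exact_mod_cast hb
  have h1 := h.2
  rw [← Real.le_logb_iff_rpow_le (by norm_num) (by linarith), div_le_iff₀' hP'] at h1
  have h2 : j.1 + j.2.1 + j.2.2 ≤ ⌊(P : ℝ) * Real.logb 2 b⌋₊ := Nat.le_floor h1
  rw [mem_product, mem_product, mem_range, mem_range, mem_range]
  exact ⟨by omega, by omega, by omega⟩

theorem CSP_cardGa {P N a b : ℕ} (hP : 2 ≤ P) (hN : 1 ≤ N) (hb : 1 ≤ b) (hbN : b ≤ 2 * N) :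
    (#(CSP_Ga P a b) : ℝ) ≤ (2 * (P * (1 + Real.log N))) ^ 3 := by
  classical
  have hP' : (2 : ℝ) ≤ P := by exact_mod_cast hP
  have hb' : (1 : ℝ) ≤ b := by exact_mod_cast hb
  have hN' : (1 : ℝ) ≤ N := by exact_mod_cast hN
  have hlN : 0 ≤ Real.log N := Real.log_nonneg hN'
  have hl2 := Real.log_two_gt_d9
  have h1 : #(CSP_Ga P a b) ≤ (⌊(P : ℝ) * Real.logb 2 b⌋₊ + 1) ^ 3 := by
    refine (Finset.card_filter_le _ _).trans (le_of_eq ?_)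
    rw [card_product, card_product, card_range]
    ring
  have h2 : ((⌊(P : ℝ) * Real.logb 2 b⌋₊ : ℝ) + 1) ≤ 2 * (P * (1 + Real.log N)) := by
    have h3 : (⌊(P : ℝ) * Real.logb 2 b⌋₊ : ℝ) ≤ (P : ℝ) * Real.logb 2 b := by
      refine Nat.floor_le ?_
      have := Real.logb_nonneg (b := 2) (by norm_num) hb'
      positivity
    have h4 : Real.logb 2 b ≤ 1 + 3 / 2 * Real.log N := by
      have h5 : Real.log b ≤ Real.log 2 + Real.log N := by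
        rw [← Real.log_mul (by norm_num) (by linarith)]
        exact Real.log_le_log (by linarith) (by exact_mod_cast hbN)
      rw [Real.logb, div_le_iff₀ (by linarith)]
      nlinarith
    have h5 : (P : ℝ) * Real.logb 2 b ≤ P * (1 + 3 / 2 * Real.log N) := mul_le_mul_of_nonneg_left h4 (by linarith)
    nlinarith
  calc (#(CSP_Ga P a b) : ℝ) ≤ ((⌊(P : ℝ) * Real.logb 2 b⌋₊ : ℝ) + 1) ^ 3 := by exact_mod_cast h1
    _ ≤ (2 * (P * (1 + Real.log N))) ^ 3 := pow_le_pow_left₀ (by positivity) h2 3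

open scoped Classical in
theorem CSP_good {P a b : ℕ} (hP : 1 ≤ P) (hb : 1 ≤ b) (v₁ v₂ v₃ : ℤ × ℤ → ℂ) :
    (∑ z₁ ∈ FF b, ∑ z₂ ∈ FF b, ∑ z₃ ∈ FF b,
      if CSP_Gd P a b (CSP_cx P (nn z₁) + CSP_cx P (nn z₂) + CSP_cx P (nn z₃)) then v₁ z₁ * v₂ z₂ * v₃ z₃ else 0) =
    ∑ j ∈ CSP_Ga P a b, (∑ z ∈ FF b with CSP_cx P (nn z) = j.1, v₁ z) *
      (∑ z ∈ FF b with CSP_cx P (nn z) = j.2.1, v₂ z) * (∑ z ∈ FF b with CSP_cx P (nn z) = j.2.2, v₃ z) := by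
  have h1 : ∀ z₁ z₂ z₃ : ℤ × ℤ,
      (if CSP_Gd P a b (CSP_cx P (nn z₁) + CSP_cx P (nn z₂) + CSP_cx P (nn z₃)) then v₁ z₁ * v₂ z₂ * v₃ z₃ else 0) =
      ∑ j ∈ CSP_Ga P a b, (if CSP_cx P (nn z₁) = j.1 then v₁ z₁ else 0) *
        (if CSP_cx P (nn z₂) = j.2.1 then v₂ z₂ else 0) * (if CSP_cx P (nn z₃) = j.2.2 then v₃ z₃ else 0) := by
    intro z₁ z₂ z₃
    have h2 : ∀ j : ℕ × ℕ × ℕ, (if CSP_cx P (nn z₁) = j.1 then v₁ z₁ else 0) *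
        (if CSP_cx P (nn z₂) = j.2.1 then v₂ z₂ else 0) * (if CSP_cx P (nn z₃) = j.2.2 then v₃ z₃ else 0) =
        if (CSP_cx P (nn z₁), CSP_cx P (nn z₂), CSP_cx P (nn z₃)) = j then v₁ z₁ * v₂ z₂ * v₃ z₃ else 0 := by
      rintro ⟨j₁, j₂, j₃⟩
      simp only [Prod.mk.injEq]
      by_cases e1 : CSP_cx P (nn z₁) = j₁ <;> by_cases e2 : CSP_cx P (nn z₂) = j₂ <;>
        by_cases e3 : CSP_cx P (nn z₃) = j₃ <;> simp [e1, e2, e3]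
    rw [Finset.sum_congr rfl fun j _ => h2 j, Finset.sum_ite_eq]
    simp only [CSP_memGa hP hb]
  simp only [Finset.sum_filter]
  rw [Finset.sum_congr rfl fun z₁ _ => Finset.sum_congr rfl fun z₂ _ => Finset.sum_congr rfl fun z₃ _ => h1 z₁ z₂ z₃,
    Finset.sum_congr rfl fun z₁ _ => Finset.sum_congr rfl fun z₂ _ => Finset.sum_comm,
    Finset.sum_congr rfl fun z₁ _ => Finset.sum_comm, Finset.sum_comm]
  refine Finset.sum_congr rfl fun j _ => ?_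
  rw [Finset.sum_mul_sum, Finset.sum_mul]
  refine Finset.sum_congr rfl fun z₁ _ => ?_
  rw [Finset.sum_mul]
  refine Finset.sum_congr rfl fun z₂ _ => ?_
  rw [Finset.mul_sum]

open scoped Classical in
theorem CSP_goodbd {P N a b : ℕ} (hP : 2 ≤ P) (hN : 1 ≤ N) (hNa : N ≤ a) (hab : a ≤ b) (hbN : b ≤ 2 * N) (W : ℝ)
    (hW : 0 ≤ W) (T : Finset ℤ) (v₁ v₂ v₃ : ℤ → ℤ × ℤ → ℂ)
    (h : ∀ a₁ b₁ a₂ b₂ a₃ b₃ : ℕ, Cel a₁ b₁ → Cel a₂ b₂ → Cel a₃ b₃ → N ≤ 8 * (b₁ * b₂ * b₃) → b₁ * b₂ * b₃ ≤ 2 * N →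
      ∑ m ∈ T, ‖∑ z ∈ FF b₁ with a₁ < nn z, v₁ m z‖ ^ 2 * ‖∑ z ∈ FF b₂ with a₂ < nn z, v₂ m z‖ ^ 2 *
        ‖∑ z ∈ FF b₃ with a₃ < nn z, v₃ m z‖ ^ 2 ≤ W) :
    ∑ m ∈ T, ‖∑ z₁ ∈ FF b, ∑ z₂ ∈ FF b, ∑ z₃ ∈ FF b,
      if CSP_Gd P a b (CSP_cx P (nn z₁) + CSP_cx P (nn z₂) + CSP_cx P (nn z₃)) then v₁ m z₁ * v₂ m z₂ * v₃ m z₃ else 0‖ ^ 2 ≤
    (#(CSP_Ga P a b) : ℝ) ^ 2 * W := by
  have hP1 : 1 ≤ P := by omega
  have hb : 1 ≤ b := by omega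
  have hP' : (0 : ℝ) < P := by exact_mod_cast hP1
  -- one triple
  have key : ∀ j ∈ CSP_Ga P a b, ∑ m ∈ T, ‖(∑ z ∈ FF b with CSP_cx P (nn z) = j.1, v₁ m z) *
      (∑ z ∈ FF b with CSP_cx P (nn z) = j.2.1, v₂ m z) * (∑ z ∈ FF b with CSP_cx P (nn z) = j.2.2, v₃ m z)‖ ^ 2 ≤ W := by
    rintro ⟨j₁, j₂, j₃⟩ hj
    rw [CSP_memGa hP1 hb] at hj
    obtain ⟨g1, g2⟩ := hj
    simp only at g1 g2 ⊢
    have hpos : ∀ j : ℕ, (1 : ℝ) ≤ (2 : ℝ) ^ ((j : ℝ) / P) := fun j => Real.one_le_rpow (by norm_num) (by positivity)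
    have hprod : (2 : ℝ) ^ (((j₁ + j₂ + j₃ : ℕ) : ℝ) / P) =
        (2 : ℝ) ^ ((j₁ : ℝ) / P) * (2 : ℝ) ^ ((j₂ : ℝ) / P) * (2 : ℝ) ^ ((j₃ : ℝ) / P) := by
      rw [← Real.rpow_add (by norm_num), ← Real.rpow_add (by norm_num)]
      congr 1
      push_cast
      ring
    have hfl : ∀ j : ℕ, (CSP_hi P j : ℝ) ≤ (2 : ℝ) ^ ((j : ℝ) / P) := fun j => Nat.floor_le (by positivity)
    have hfl' : ∀ j : ℕ, (2 : ℝ) ^ ((j : ℝ) / P) ≤ 2 * (CSP_hi P j : ℝ) := by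
      intro j
      have h1 : (2 : ℝ) ^ ((j : ℝ) / P) < (CSP_hi P j : ℝ) + 1 := Nat.lt_floor_add_one _
      have h2 : 1 ≤ CSP_hi P j := Nat.le_floor (by exact_mod_cast hpos j)
      have h3 : (1 : ℝ) ≤ (CSP_hi P j : ℝ) := by exact_mod_cast h2
      linarith
    have p1 := hpos j₁
    have p2 := hpos j₂
    have p3 := hpos j₃
    rw [hprod] at g2
    have p12 : 1 ≤ (2 : ℝ) ^ ((j₁ : ℝ) / P) * (2 : ℝ) ^ ((j₂ : ℝ) / P) := one_le_mul_of_one_le_of_one_le p1 p2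
    have q1 : CSP_hi P j₁ ≤ b := by
      have : (CSP_hi P j₁ : ℝ) ≤ b := by
        refine (hfl j₁).trans (le_trans ?_ g2)
        rw [mul_assoc]
        exact le_mul_of_one_le_right (by linarith) (one_le_mul_of_one_le_of_one_le p2 p3)
      exact_mod_cast this
    have q2 : CSP_hi P j₂ ≤ b := by
      have : (CSP_hi P j₂ : ℝ) ≤ b := by
        refine (hfl j₂).trans (le_trans ?_ g2)
        rw [mul_comm ((2 : ℝ) ^ ((j₁ : ℝ) / P)), mul_assoc]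
        exact le_mul_of_one_le_right (by linarith) (one_le_mul_of_one_le_of_one_le p1 p3)
      exact_mod_cast this
    have q3 : CSP_hi P j₃ ≤ b := by
      have : (CSP_hi P j₃ : ℝ) ≤ b := by
        refine (hfl j₃).trans (le_trans ?_ g2)
        exact le_mul_of_one_le_left (by linarith) p12
      exact_mod_cast this
    rw [CSP_set hP1 q1, CSP_set hP1 q2, CSP_set hP1 q3]
    have hz : ∀ (j : ℕ) (v : ℤ → ℤ × ℤ → ℂ) (m : ℤ), ¬ CSP_lo P j < CSP_hi P j →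
        ∑ z ∈ FF (CSP_hi P j) with CSP_lo P j < nn z, v m z = 0 := by
      intro j v m hn
      refine Finset.sum_eq_zero fun z hz => ?_
      rw [mem_filter, CSP_FF] at hz
      exact absurd (hz.2.trans_le hz.1.2) hn
    simp only [norm_mul, mul_pow]
    by_cases c1 : CSP_lo P j₁ < CSP_hi P j₁
    swap
    · refine le_trans (le_of_eq ?_) hW
      refine Finset.sum_eq_zero fun m _ => ?_
      rw [hz j₁ v₁ m c1]
      simp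
    by_cases c2 : CSP_lo P j₂ < CSP_hi P j₂
    swap
    · refine le_trans (le_of_eq ?_) hW
      refine Finset.sum_eq_zero fun m _ => ?_
      rw [hz j₂ v₂ m c2]
      simp
    by_cases c3 : CSP_lo P j₃ < CSP_hi P j₃
    swap
    · refine le_trans (le_of_eq ?_) hW
      refine Finset.sum_eq_zero fun m _ => ?_
      rw [hz j₃ v₃ m c3]
      simp
    refine h _ _ _ _ _ _ (CSP_Cel hP c1) (CSP_Cel hP c2) (CSP_Cel hP c3) ?_ ?_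
    · have r1 : (N : ℝ) ≤ 8 * ((CSP_hi P j₁ : ℝ) * CSP_hi P j₂ * CSP_hi P j₃) := by
        have r2 : (N : ℝ) ≤ (2 : ℝ) ^ (((j₁ + j₂ + j₃ : ℕ) : ℝ) / P) := by
          have r3 : (N : ℝ) ≤ a := by exact_mod_cast hNa
          refine r3.trans (g1.trans ?_)
          refine Real.rpow_le_rpow_of_exponent_le (by norm_num) ?_
          exact div_le_div_of_nonneg_right (by linarith) hP'.le
        rw [hprod] at r2
        have r4 : (2 : ℝ) ^ ((j₁ : ℝ) / P) * (2 : ℝ) ^ ((j₂ : ℝ) / P) * (2 : ℝ) ^ ((j₃ : ℝ) / P) ≤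
            (2 * (CSP_hi P j₁ : ℝ)) * (2 * (CSP_hi P j₂ : ℝ)) * (2 * (CSP_hi P j₃ : ℝ)) :=
          mul_le_mul (mul_le_mul (hfl' j₁) (hfl' j₂) (by positivity) (by positivity)) (hfl' j₃) (by positivity)
            (by positivity)
        linarith
      exact_mod_cast r1
    · have r1 : (CSP_hi P j₁ : ℝ) * CSP_hi P j₂ * CSP_hi P j₃ ≤ b :=
        (mul_le_mul (mul_le_mul (hfl j₁) (hfl j₂) (by positivity) (by positivity)) (hfl j₃) (by positivity)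
            (by positivity)).trans g2
      have r2 : CSP_hi P j₁ * CSP_hi P j₂ * CSP_hi P j₃ ≤ b := by exact_mod_cast r1
      exact r2.trans hbN
  calc ∑ m ∈ T, ‖∑ z₁ ∈ FF b, ∑ z₂ ∈ FF b, ∑ z₃ ∈ FF b,
      if CSP_Gd P a b (CSP_cx P (nn z₁) + CSP_cx P (nn z₂) + CSP_cx P (nn z₃)) then v₁ m z₁ * v₂ m z₂ * v₃ m z₃ else 0‖ ^ 2
      = ∑ m ∈ T, ‖∑ j ∈ CSP_Ga P a b, (∑ z ∈ FF b with CSP_cx P (nn z) = j.1, v₁ m z) *
          (∑ z ∈ FF b with CSP_cx P (nn z) = j.2.1, v₂ m z) * (∑ z ∈ FF b with CSP_cx P (nn z) = j.2.2, v₃ m z)‖ ^ 2 := by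
        refine Finset.sum_congr rfl fun m _ => ?_
        rw [CSP_good hP1 hb]
    _ ≤ ∑ m ∈ T, (#(CSP_Ga P a b) : ℝ) * ∑ j ∈ CSP_Ga P a b, ‖(∑ z ∈ FF b with CSP_cx P (nn z) = j.1, v₁ m z) *
          (∑ z ∈ FF b with CSP_cx P (nn z) = j.2.1, v₂ m z) * (∑ z ∈ FF b with CSP_cx P (nn z) = j.2.2, v₃ m z)‖ ^ 2 := by
        refine Finset.sum_le_sum fun m _ => ?_
        refine le_trans (pow_le_pow_left₀ (norm_nonneg _) (norm_sum_le _ _) 2) ?_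
        exact sq_sum_le_card_mul_sum_sq
    _ = (#(CSP_Ga P a b) : ℝ) * ∑ j ∈ CSP_Ga P a b, ∑ m ∈ T, ‖(∑ z ∈ FF b with CSP_cx P (nn z) = j.1, v₁ m z) *
          (∑ z ∈ FF b with CSP_cx P (nn z) = j.2.1, v₂ m z) * (∑ z ∈ FF b with CSP_cx P (nn z) = j.2.2, v₃ m z)‖ ^ 2 := by
        rw [← Finset.mul_sum, Finset.sum_comm]
    _ ≤ (#(CSP_Ga P a b) : ℝ) * ∑ j ∈ CSP_Ga P a b, W :=
        mul_le_mul_of_nonneg_left (Finset.sum_le_sum key) (by positivity)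
    _ = (#(CSP_Ga P a b) : ℝ) ^ 2 * W := by
        rw [Finset.sum_const, nsmul_eq_mul]
        ring

/-! ## The other triples -/

/-- the exceptional products -/
def CSP_Q (P a b n : ℕ) : Prop := a < n ∧ n ≤ b ∧ ((n : ℝ) < a * (2 : ℝ) ^ (3 / (P : ℝ)) ∨ (b : ℝ) < n * (2 : ℝ) ^ (3 / (P : ℝ)))

/-- the product of three elements in given cells -/
theorem CSP_prod {P n₁ n₂ n₃ : ℕ} (hP : 1 ≤ P) (h1 : 1 ≤ n₁) (h2 : 1 ≤ n₂) (h3 : 1 ≤ n₃) :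
    (2 : ℝ) ^ (((CSP_cx P n₁ + CSP_cx P n₂ + CSP_cx P n₃ : ℕ) : ℝ) / P - 3 / P) < n₁ * n₂ * n₃ ∧
    (n₁ * n₂ * n₃ : ℝ) ≤ (2 : ℝ) ^ (((CSP_cx P n₁ + CSP_cx P n₂ + CSP_cx P n₃ : ℕ) : ℝ) / P) := by
  obtain ⟨a1, a2⟩ := (CSP_cx_iff hP h1 _).mp rfl
  obtain ⟨b1, b2⟩ := (CSP_cx_iff hP h2 _).mp rfl
  obtain ⟨c1, c2⟩ := (CSP_cx_iff hP h3 _).mp rfl
  have e1 : (2 : ℝ) ^ (((CSP_cx P n₁ + CSP_cx P n₂ + CSP_cx P n₃ : ℕ) : ℝ) / P) =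
      (2 : ℝ) ^ ((CSP_cx P n₁ : ℝ) / P) * (2 : ℝ) ^ ((CSP_cx P n₂ : ℝ) / P) * (2 : ℝ) ^ ((CSP_cx P n₃ : ℝ) / P) := by
    rw [← Real.rpow_add (by norm_num), ← Real.rpow_add (by norm_num)]
    congr 1
    push_cast
    ring
  have e2 : (2 : ℝ) ^ (((CSP_cx P n₁ + CSP_cx P n₂ + CSP_cx P n₃ : ℕ) : ℝ) / P - 3 / P) =
      (2 : ℝ) ^ (((CSP_cx P n₁ : ℝ) - 1) / P) * (2 : ℝ) ^ (((CSP_cx P n₂ : ℝ) - 1) / P) *
        (2 : ℝ) ^ (((CSP_cx P n₃ : ℝ) - 1) / P) := by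
    rw [← Real.rpow_add (by norm_num), ← Real.rpow_add (by norm_num)]
    congr 1
    push_cast
    ring
  rw [e1, e2]
  constructor
  · exact mul_lt_mul'' (mul_lt_mul'' a1 b1 (by positivity) (by positivity)) c1 (by positivity) (by positivity)
  · exact mul_le_mul (mul_le_mul a2 b2 (by positivity) (by positivity)) c2 (by positivity) (by positivity)

theorem CSP_good_mem {P a b n₁ n₂ n₃ : ℕ} (hP : 1 ≤ P) (h1 : 1 ≤ n₁) (h2 : 1 ≤ n₂) (h3 : 1 ≤ n₃)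
    (h : CSP_Gd P a b (CSP_cx P n₁ + CSP_cx P n₂ + CSP_cx P n₃)) : a < n₁ * n₂ * n₃ ∧ n₁ * n₂ * n₃ ≤ b := by
  obtain ⟨a1, a2⟩ := CSP_prod hP h1 h2 h3
  obtain ⟨g1, g2⟩ := h
  rw [sub_div] at g1
  have r1 : (a : ℝ) < ((n₁ * n₂ * n₃ : ℕ) : ℝ) := by
    push_cast
    linarith
  have r2 : ((n₁ * n₂ * n₃ : ℕ) : ℝ) ≤ b := by
    push_cast
    linarith
  exact ⟨by exact_mod_cast r1, by exact_mod_cast r2⟩

theorem CSP_bad_mem {P a b n₁ n₂ n₃ : ℕ} (hP : 1 ≤ P) (h1 : 1 ≤ n₁) (h2 : 1 ≤ n₂) (h3 : 1 ≤ n₃)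
    (h : ¬ CSP_Gd P a b (CSP_cx P n₁ + CSP_cx P n₂ + CSP_cx P n₃)) (ha : a < n₁ * n₂ * n₃) (hb : n₁ * n₂ * n₃ ≤ b) :
    CSP_Q P a b (n₁ * n₂ * n₃) := by
  obtain ⟨a1, a2⟩ := CSP_prod hP h1 h2 h3
  refine ⟨ha, hb, ?_⟩
  rw [CSP_Gd, not_and_or, not_le, not_le, sub_div] at h
  push_cast
  have hp : (0 : ℝ) < (2 : ℝ) ^ (3 / (P : ℝ)) := by positivity
  rw [Real.rpow_sub (by norm_num), div_lt_iff₀ hp] at a1
  rcases h with h | h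
  · left
    rw [Real.rpow_sub (by norm_num), div_lt_iff₀ hp] at h
    linarith
  · right
    linarith

open scoped Classical in
theorem CSP_cardQ {P N a b : ℕ} (hP : 2 ≤ P) (hab : a ≤ b) (hbN : b ≤ 2 * N) :
    (#{n ∈ Icc 1 (2 * N) | CSP_Q P a b n} : ℝ) ≤ 28 * N / P + 1 := by
  obtain ⟨-, -, -, hx1, hx7⟩ := CSP_root hP
  obtain ⟨x, hx⟩ : ∃ x : ℝ, x = (2 : ℝ) ^ (3 / (P : ℝ)) := ⟨_, rfl⟩
  rw [← hx] at hx1 hx7
  have hx0 : 0 < x := by linarith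
  have hP' : (0 : ℝ) < P := by
    have : 0 < P := by omega
    exact_mod_cast this
  have ha' : (a : ℝ) ≤ 2 * N := by exact_mod_cast hab.trans hbN
  have hb' : (b : ℝ) ≤ 2 * N := by exact_mod_cast hbN
  have h1 : {n ∈ Icc 1 (2 * N) | CSP_Q P a b n} ⊆ Ioc a ⌊(a : ℝ) * x⌋₊ ∪ Ioc ⌊(b : ℝ) / x⌋₊ b := by
    intro n hn
    rw [mem_filter] at hn
    obtain ⟨-, h1, h2, h3⟩ := hn
    rw [mem_union, mem_Ioc, mem_Ioc]
    rw [← hx] at h3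
    rcases h3 with h3 | h3
    · left
      exact ⟨h1, Nat.le_floor h3.le⟩
    · right
      refine ⟨?_, h2⟩
      rw [Nat.floor_lt (by positivity), div_lt_iff₀ hx0]
      exact h3
  have h2 : #{n ∈ Icc 1 (2 * N) | CSP_Q P a b n} ≤ (⌊(a : ℝ) * x⌋₊ - a) + (b - ⌊(b : ℝ) / x⌋₊) := by
    refine (card_le_card h1).trans ((card_union_le _ _).trans ?_)
    rw [Nat.card_Ioc, Nat.card_Ioc]
  have h3 : a ≤ ⌊(a : ℝ) * x⌋₊ := Nat.le_floor (le_mul_of_one_le_right (by positivity) hx1)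
  have h4 : ⌊(b : ℝ) / x⌋₊ ≤ b := by
    have : (⌊(b : ℝ) / x⌋₊ : ℝ) ≤ b := (Nat.floor_le (by positivity)).trans (div_le_self (by positivity) hx1)
    exact_mod_cast this
  have h5 : (#{n ∈ Icc 1 (2 * N) | CSP_Q P a b n} : ℝ) ≤
      ((⌊(a : ℝ) * x⌋₊ : ℝ) - a) + ((b : ℝ) - (⌊(b : ℝ) / x⌋₊ : ℝ)) := by
    have h6 : ((#{n ∈ Icc 1 (2 * N) | CSP_Q P a b n} : ℕ) : ℝ) ≤
        (((⌊(a : ℝ) * x⌋₊ - a) + (b - ⌊(b : ℝ) / x⌋₊) : ℕ) : ℝ) := by exact_mod_cast h2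
    rw [Nat.cast_add, Nat.cast_sub h3, Nat.cast_sub h4] at h6
    exact h6
  have h6 : (⌊(a : ℝ) * x⌋₊ : ℝ) ≤ a * x := Nat.floor_le (by positivity)
  have h7 : (b : ℝ) / x < (⌊(b : ℝ) / x⌋₊ : ℝ) + 1 := Nat.lt_floor_add_one _
  have h8 : (b : ℝ) - b / x ≤ b * (x - 1) := by
    have h9 : (b : ℝ) - b / x = b * (x - 1) / x := by
      field_simp
    rw [h9]
    refine div_le_self ?_ hx1
    exact mul_nonneg (by positivity) (by linarith)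
  have h9 : (a : ℝ) * (x - 1) ≤ 2 * N * (7 / P) := mul_le_mul ha' hx7 (by linarith) (by positivity)
  have h10 : (b : ℝ) * (x - 1) ≤ 2 * N * (7 / P) := mul_le_mul hb' hx7 (by linarith) (by positivity)
  have h11 : 28 * (N : ℝ) / P = 2 * N * (7 / P) + 2 * N * (7 / P) := by ring
  rw [h11]
  linarith

open scoped Classical in
theorem CSP_tau (hTAM : Pool.Agent.SK.TAM_stmt) : ∃ E : ℕ, ∀ P N a b : ℕ, 2 ≤ P → 1 ≤ N → a ≤ b → b ≤ 2 * N →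
    ∑ n ∈ Icc 1 (2 * N) with CSP_Q P a b n, (#n.divisors : ℝ) ^ (2 * 6 + 2) ≤
      (8 * (N / √(P : ℝ)) + 2 * √(N : ℝ)) * (2 * (1 + Real.log N)) ^ E := by
  obtain ⟨E, hE⟩ : ∃ E : ℕ, ∀ x : ℕ, ∑ n ∈ Ioc 0 x, Pool.Agent.helper85.BVP.tau n ^ 28 ≤
      x * (1 + Real.log x) ^ E := ⟨_, fun x => (hTAM 28 x).1⟩
  refine ⟨E, fun P N a b hP hN hab hbN => ?_⟩
  have hN' : (1 : ℝ) ≤ N := by exact_mod_cast hN
  have hP0 : (0 : ℝ) < P := by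
    have : 0 < P := by omega
    exact_mod_cast this
  have hlN : 0 ≤ Real.log N := Real.log_nonneg hN'
  have h1 : (∑ n ∈ Icc 1 (2 * N) with CSP_Q P a b n, (#n.divisors : ℝ) ^ (2 * 6 + 2)) ^ 2 ≤
      (#{n ∈ Icc 1 (2 * N) | CSP_Q P a b n} : ℝ) *
        ∑ n ∈ Icc 1 (2 * N) with CSP_Q P a b n, ((#n.divisors : ℝ) ^ (2 * 6 + 2)) ^ 2 := sq_sum_le_card_mul_sum_sq
  have h2 : ∑ n ∈ Icc 1 (2 * N) with CSP_Q P a b n, ((#n.divisors : ℝ) ^ (2 * 6 + 2)) ^ 2 ≤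
      2 * N * (2 * (1 + Real.log N)) ^ E := by
    calc ∑ n ∈ Icc 1 (2 * N) with CSP_Q P a b n, ((#n.divisors : ℝ) ^ (2 * 6 + 2)) ^ 2
        ≤ ∑ n ∈ Ioc 0 (2 * N), Pool.Agent.helper85.BVP.tau n ^ 28 := by
          have h3 : ∀ n : ℕ, ((#n.divisors : ℝ) ^ (2 * 6 + 2)) ^ 2 = Pool.Agent.helper85.BVP.tau n ^ 28 := by
            intro n
            rw [Pool.Agent.helper85.BVP.tau, ← pow_mul]
          rw [Finset.sum_congr rfl fun n _ => h3 n]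
          refine Finset.sum_le_sum_of_subset_of_nonneg ?_ fun n _ _ => ?_
          · intro n hn
            rw [mem_filter, mem_Icc] at hn
            rw [mem_Ioc]
            omega
          · exact pow_nonneg (Pool.Agent.helper85.BVP.tau_nonneg n) 28
      _ ≤ ((2 * N : ℕ) : ℝ) * (1 + Real.log ((2 * N : ℕ) : ℝ)) ^ E := hE (2 * N)
      _ ≤ 2 * N * (2 * (1 + Real.log N)) ^ E := by
          have h4 : Real.log ((2 * N : ℕ) : ℝ) = Real.log 2 + Real.log N := by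
            push_cast
            exact Real.log_mul (by norm_num) (by linarith)
          have h5 := Real.log_two_lt_d9
          have h6 := Real.log_two_gt_d9
          have h7 : (1 + Real.log ((2 * N : ℕ) : ℝ)) ^ E ≤ (2 * (1 + Real.log N)) ^ E := by
            refine pow_le_pow_left₀ ?_ ?_ E
            · rw [h4]
              linarith
            · rw [h4]
              linarith
          have h8 : ((2 * N : ℕ) : ℝ) = 2 * N := by push_cast; ring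
          rw [h8] at h7 ⊢
          exact mul_le_mul_of_nonneg_left h7 (by positivity)
  have hΛ : 1 ≤ (2 * (1 + Real.log N)) ^ E := one_le_pow₀ (by linarith)
  obtain ⟨Λ, hΛe⟩ : ∃ Λ : ℝ, Λ = (2 * (1 + Real.log N)) ^ E := ⟨_, rfl⟩
  rw [← hΛe] at hΛ h2 ⊢
  have h3 := CSP_cardQ (P := P) (N := N) (a := a) (b := b) hP hab hbN
  have hs : √(N : ℝ) ^ 2 = N := Real.sq_sqrt (by positivity)
  have hsP : √(P : ℝ) ^ 2 = P := Real.sq_sqrt (by positivity)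
  have h4 : (28 * (N : ℝ) / P + 1) * (2 * N) ≤ (8 * (N / √(P : ℝ)) + 2 * √(N : ℝ)) ^ 2 := by
    have h5 : (8 * (N / √(P : ℝ)) + 2 * √(N : ℝ)) ^ 2 =
        64 * ((N : ℝ) ^ 2 / P) + 4 * N + 32 * ((N / √(P : ℝ)) * √(N : ℝ)) := by
      have h6 : (N / √(P : ℝ)) ^ 2 = (N : ℝ) ^ 2 / P := by rw [div_pow, hsP]
      calc (8 * (N / √(P : ℝ)) + 2 * √(N : ℝ)) ^ 2 =
          64 * (N / √(P : ℝ)) ^ 2 + 4 * √(N : ℝ) ^ 2 + 32 * ((N / √(P : ℝ)) * √(N : ℝ)) := by ring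
        _ = _ := by rw [h6, hs]
    have h7 : (28 * (N : ℝ) / P + 1) * (2 * N) = 56 * ((N : ℝ) ^ 2 / P) + 2 * N := by
      field_simp
      ring
    rw [h5, h7]
    have h8 : 0 ≤ (N : ℝ) ^ 2 / P := by positivity
    have h9 : 0 ≤ (N / √(P : ℝ)) * √(N : ℝ) := by positivity
    linarith
  have hnn : 0 ≤ 8 * (N / √(P : ℝ)) + 2 * √(N : ℝ) := by positivity
  refine (pow_le_pow_iff_left₀ (Finset.sum_nonneg fun n _ => by positivity) (by positivity) two_ne_zero).mp ?_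
  calc (∑ n ∈ Icc 1 (2 * N) with CSP_Q P a b n, (#n.divisors : ℝ) ^ (2 * 6 + 2)) ^ 2
      ≤ (28 * (N : ℝ) / P + 1) * (2 * N * Λ) := h1.trans (mul_le_mul h3 h2 (Finset.sum_nonneg fun n _ => by positivity)
          (by positivity))
    _ = (28 * (N : ℝ) / P + 1) * (2 * N) * Λ := by ring
    _ ≤ (8 * (N / √(P : ℝ)) + 2 * √(N : ℝ)) ^ 2 * Λ ^ 2 := by
        refine mul_le_mul h4 ?_ (by linarith) (by positivity)
        nlinarith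
    _ = ((8 * (N / √(P : ℝ)) + 2 * √(N : ℝ)) * Λ) ^ 2 := by ring

theorem CSP (hPR3 : PR3_stmt) (hMVQ : MVQ_stmt) (hTAM : Pool.Agent.SK.TAM_stmt) : CSP_stmt := by
  classical
  obtain ⟨C, hC, hMVQ⟩ := hMVQ
  obtain ⟨E, hE⟩ := CSP_tau hTAM
  refine ⟨128 + 32 * C * 2 ^ E, E, by positivity, ?_⟩
  intro α Ψ c hFam hα0 hα N a b M₁ P V W u₁ u₂ u₃ T hT hM₁ hMN hNa hab hbN hP hV hW hu₁ hu₂ hu₃ hcell
  obtain ⟨hMU, hc, hFd⟩ := hFam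
  have hN : 1 ≤ N := by
    have : 1 ≤ M₁ ^ 2 := Nat.one_le_pow _ _ hM₁
    omega
  have hb1 : 1 ≤ b := by omega
  have hP1 : 1 ≤ P := by omega
  have hN' : (1 : ℝ) ≤ N := by exact_mod_cast hN
  have hlN : 0 ≤ Real.log N := Real.log_nonneg hN'
  have hV0 : 0 ≤ V := by linarith
  -- the good triples
  have good := CSP_goodbd hP hN hNa hab hbN W hW T (fun m z => u₁ z * Ψ m z) (fun m z => u₂ z * Ψ m z)
    (fun m z => u₃ z * Ψ m z) hcell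
  -- the other triples
  obtain ⟨F, hF⟩ : ∃ F : ℤ × ℤ → ℤ × ℤ → ℤ × ℤ → ℂ, F = fun z₁ z₂ z₃ =>
      if (a < nn z₁ * nn z₂ * nn z₃ ∧ nn z₁ * nn z₂ * nn z₃ ≤ b) ∧
        ¬ CSP_Gd P a b (CSP_cx P (nn z₁) + CSP_cx P (nn z₂) + CSP_cx P (nn z₃)) then u₁ z₁ * u₂ z₂ * u₃ z₃ else 0 :=
    ⟨_, rfl⟩
  obtain ⟨bb, hbb, hbs⟩ := hPR3 b b b F (fun n => if CSP_Q P a b n then V ^ 3 else 0) hb1 hb1 hb1
    (fun n => by
      split_ifs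
      · positivity
      · exact le_rfl)
    (by
      intro z₁ hz₁ z₂ hz₂ z₃ hz₃
      rw [CSP_FF] at hz₁ hz₂ hz₃
      have n1 := (Pool.Agent.FI.SIZ z₁ hz₁.1).2.2.1
      have n2 := (Pool.Agent.FI.SIZ z₂ hz₂.1).2.2.1
      have n3 := (Pool.Agent.FI.SIZ z₃ hz₃.1).2.2.1
      rw [hF]
      simp only
      by_cases h : (a < nn z₁ * nn z₂ * nn z₃ ∧ nn z₁ * nn z₂ * nn z₃ ≤ b) ∧
        ¬ CSP_Gd P a b (CSP_cx P (nn z₁) + CSP_cx P (nn z₂) + CSP_cx P (nn z₃))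
      · have hQ : CSP_Q P a b (nn z₁ * nn z₂ * nn z₃) := CSP_bad_mem hP1 n1 n2 n3 h.2 h.1.1 h.1.2
        rw [if_pos h, if_pos hQ, norm_mul, norm_mul]
        calc ‖u₁ z₁‖ * ‖u₂ z₂‖ * ‖u₃ z₃‖ ≤ V * V * V :=
              mul_le_mul (mul_le_mul (hu₁ z₁) (hu₂ z₂) (norm_nonneg _) hV0) (hu₃ z₃) (norm_nonneg _) (by positivity)
          _ = V ^ 3 := by ring
      · rw [if_neg h, norm_zero]
        split_ifs
        · positivity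
        · exact le_rfl)
  have hbbV : ∀ v, ‖bb v‖ ≤ V ^ 3 * (#(nn v).divisors : ℝ) ^ 6 := by
    intro v
    refine (hbb v).trans ?_
    rw [mul_comm]
    refine mul_le_mul_of_nonneg_right ?_ (by positivity)
    split_ifs
    · exact le_rfl
    · positivity
  have hbbQ : ∀ v, bb v ≠ 0 → CSP_Q P a b (nn v) := by
    intro v hv
    by_contra h
    have h1 := hbb v
    rw [if_neg h, mul_zero] at h1
    exact hv (norm_le_zero_iff.mp h1)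
  have hsum : ∀ (m : ℤ) (u : ℕ), b ≤ u → ∑ v ∈ FF u, bb v * Ψ m v = ∑ v ∈ FF b, bb v * Ψ m v := by
    intro m u hu
    symm
    refine Finset.sum_subset ?_ ?_
    · intro v hv
      rw [CSP_FF] at hv ⊢
      exact ⟨hv.1, hv.2.trans hu⟩
    · intro v hv hv'
      rw [CSP_FF] at hv hv'
      by_cases h0 : bb v = 0
      · rw [h0, zero_mul]
      · exact absurd ⟨hv.1, (hbbQ v h0).2.1⟩ hv'
  have bad : ∑ m ∈ T, ‖∑ z₁ ∈ FF b, ∑ z₂ ∈ FF b, ∑ z₃ ∈ FF b, F z₁ z₂ z₃ * (Ψ m z₁ * Ψ m z₂ * Ψ m z₃)‖ ^ 2 ≤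
      C * (V ^ 3) ^ 2 * (2 * N) * ((8 * (N / √(P : ℝ)) + 2 * √(N : ℝ)) * (2 * (1 + Real.log N)) ^ E) := by
    have h1 : ∀ m : ℤ, ∑ z₁ ∈ FF b, ∑ z₂ ∈ FF b, ∑ z₃ ∈ FF b, F z₁ z₂ z₃ * (Ψ m z₁ * Ψ m z₂ * Ψ m z₃) =
        ∑ v ∈ FF (2 * N), bb v * c v * Complex.exp (((fr α m * yy v : ℝ) : ℂ) * Complex.I) := by
      intro m
      rw [hbs (Ψ m) (hMU m), hsum m (b * b * b) ?_, ← hsum m (2 * N) hbN]
      · refine Finset.sum_congr rfl fun v hv => ?_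
        rw [CSP_FF] at hv
        rw [hFd m v hv.1, mul_assoc]
      · calc b = 1 * 1 * b := by ring
          _ ≤ b * b * b := Nat.mul_le_mul_right b (Nat.mul_le_mul hb1 hb1)
    have h2 := hMVQ (2 * N) M₁ 6 α (V ^ 3) (CSP_Q P a b) (fun v => bb v * c v) hM₁ (by omega) hα0 hα (by positivity)
      (fun v => by
        rw [norm_mul]
        calc ‖bb v‖ * ‖c v‖ ≤ ‖bb v‖ * 1 := mul_le_mul_of_nonneg_left (hc v) (norm_nonneg _)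
          _ = ‖bb v‖ := mul_one _
          _ ≤ _ := hbbV v)
      (fun v hv => hbbQ v (left_ne_zero_of_mul hv))
    have h3 : ((2 * N : ℕ) : ℝ) = 2 * N := by push_cast; ring
    rw [h3] at h2
    calc ∑ m ∈ T, ‖∑ z₁ ∈ FF b, ∑ z₂ ∈ FF b, ∑ z₃ ∈ FF b, F z₁ z₂ z₃ * (Ψ m z₁ * Ψ m z₂ * Ψ m z₃)‖ ^ 2
        ≤ ∑ m ∈ Icc (-(M₁ : ℤ)) M₁,
            ‖∑ z₁ ∈ FF b, ∑ z₂ ∈ FF b, ∑ z₃ ∈ FF b, F z₁ z₂ z₃ * (Ψ m z₁ * Ψ m z₂ * Ψ m z₃)‖ ^ 2 :=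
          Finset.sum_le_sum_of_subset_of_nonneg hT fun _ _ _ => by positivity
      _ = ∑ m ∈ Icc (-(M₁ : ℤ)) M₁,
            ‖∑ v ∈ FF (2 * N), bb v * c v * Complex.exp (((fr α m * yy v : ℝ) : ℂ) * Complex.I)‖ ^ 2 :=
          Finset.sum_congr rfl fun m _ => by rw [h1 m]
      _ ≤ _ := h2
      _ ≤ _ := mul_le_mul_of_nonneg_left (hE P N a b hP hN hab hbN) (by positivity)
  -- the decomposition
  have hdec : ∀ m : ℤ, (∑ z₁ ∈ FF b, ∑ z₂ ∈ FF b, ∑ z₃ ∈ FF b,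
      if a < nn z₁ * nn z₂ * nn z₃ ∧ nn z₁ * nn z₂ * nn z₃ ≤ b then
        u₁ z₁ * u₂ z₂ * u₃ z₃ * (Ψ m z₁ * Ψ m z₂ * Ψ m z₃) else 0) =
      (∑ z₁ ∈ FF b, ∑ z₂ ∈ FF b, ∑ z₃ ∈ FF b,
        if CSP_Gd P a b (CSP_cx P (nn z₁) + CSP_cx P (nn z₂) + CSP_cx P (nn z₃)) then
          (u₁ z₁ * Ψ m z₁) * (u₂ z₂ * Ψ m z₂) * (u₃ z₃ * Ψ m z₃) else 0) +
      ∑ z₁ ∈ FF b, ∑ z₂ ∈ FF b, ∑ z₃ ∈ FF b, F z₁ z₂ z₃ * (Ψ m z₁ * Ψ m z₂ * Ψ m z₃) := by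
    intro m
    simp only [← Finset.sum_add_distrib]
    refine Finset.sum_congr rfl fun z₁ hz₁ => Finset.sum_congr rfl fun z₂ hz₂ => Finset.sum_congr rfl fun z₃ hz₃ => ?_
    rw [CSP_FF] at hz₁ hz₂ hz₃
    have n1 := (Pool.Agent.FI.SIZ z₁ hz₁.1).2.2.1
    have n2 := (Pool.Agent.FI.SIZ z₂ hz₂.1).2.2.1
    have n3 := (Pool.Agent.FI.SIZ z₃ hz₃.1).2.2.1
    rw [hF]
    simp only
    by_cases g : CSP_Gd P a b (CSP_cx P (nn z₁) + CSP_cx P (nn z₂) + CSP_cx P (nn z₃))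
    · have g' := CSP_good_mem hP1 n1 n2 n3 g
      rw [if_pos g', if_pos g, if_neg (fun h => h.2 g), zero_mul, add_zero]
      ring
    · by_cases g' : a < nn z₁ * nn z₂ * nn z₃ ∧ nn z₁ * nn z₂ * nn z₃ ≤ b
      · rw [if_pos g', if_neg g, if_pos ⟨g', g⟩, zero_add]
      · rw [if_neg g', if_neg g, if_neg (fun h => g' h.1), zero_mul, add_zero]
  have hcard := CSP_cardGa (P := P) (N := N) (a := a) (b := b) hP hN hb1 hbN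
  have hX : 0 ≤ (P : ℝ) * (1 + Real.log N) := by positivity
  have hgood2 : (#(CSP_Ga P a b) : ℝ) ^ 2 * W ≤ 64 * (P * (1 + Real.log N)) ^ 6 * W := by
    refine mul_le_mul_of_nonneg_right ?_ hW
    calc (#(CSP_Ga P a b) : ℝ) ^ 2 ≤ ((2 * (P * (1 + Real.log N))) ^ 3) ^ 2 := pow_le_pow_left₀ (by positivity) hcard 2
      _ = 64 * (P * (1 + Real.log N)) ^ 6 := by ring
  calc ∑ m ∈ T, ‖∑ z₁ ∈ FF b, ∑ z₂ ∈ FF b, ∑ z₃ ∈ FF b,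
      if a < nn z₁ * nn z₂ * nn z₃ ∧ nn z₁ * nn z₂ * nn z₃ ≤ b then
        u₁ z₁ * u₂ z₂ * u₃ z₃ * (Ψ m z₁ * Ψ m z₂ * Ψ m z₃) else 0‖ ^ 2
      ≤ ∑ m ∈ T, (2 * ‖∑ z₁ ∈ FF b, ∑ z₂ ∈ FF b, ∑ z₃ ∈ FF b,
        if CSP_Gd P a b (CSP_cx P (nn z₁) + CSP_cx P (nn z₂) + CSP_cx P (nn z₃)) then
          (u₁ z₁ * Ψ m z₁) * (u₂ z₂ * Ψ m z₂) * (u₃ z₃ * Ψ m z₃) else 0‖ ^ 2 +
        2 * ‖∑ z₁ ∈ FF b, ∑ z₂ ∈ FF b, ∑ z₃ ∈ FF b, F z₁ z₂ z₃ * (Ψ m z₁ * Ψ m z₂ * Ψ m z₃)‖ ^ 2) := by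
        refine Finset.sum_le_sum fun m _ => ?_
        rw [hdec m]
        refine (pow_le_pow_left₀ (norm_nonneg _) (norm_add_le _ _) 2).trans ?_
        have hsq : ∀ x y : ℝ, (x + y) ^ 2 ≤ 2 * x ^ 2 + 2 * y ^ 2 := fun x y => by nlinarith [sq_nonneg (x - y)]
        exact hsq _ _
    _ = 2 * ∑ m ∈ T, ‖∑ z₁ ∈ FF b, ∑ z₂ ∈ FF b, ∑ z₃ ∈ FF b,
        if CSP_Gd P a b (CSP_cx P (nn z₁) + CSP_cx P (nn z₂) + CSP_cx P (nn z₃)) then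
          (u₁ z₁ * Ψ m z₁) * (u₂ z₂ * Ψ m z₂) * (u₃ z₃ * Ψ m z₃) else 0‖ ^ 2 +
        2 * ∑ m ∈ T, ‖∑ z₁ ∈ FF b, ∑ z₂ ∈ FF b, ∑ z₃ ∈ FF b, F z₁ z₂ z₃ * (Ψ m z₁ * Ψ m z₂ * Ψ m z₃)‖ ^ 2 := by
        rw [Finset.sum_add_distrib, ← Finset.mul_sum, ← Finset.mul_sum]
    _ ≤ 2 * (64 * (P * (1 + Real.log N)) ^ 6 * W) + 2 * (C * (V ^ 3) ^ 2 * (2 * N) *
          ((8 * (N / √(P : ℝ)) + 2 * √(N : ℝ)) * (2 * (1 + Real.log N)) ^ E)) :=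
        add_le_add (mul_le_mul_of_nonneg_left (good.trans hgood2) (by norm_num))
          (mul_le_mul_of_nonneg_left bad (by norm_num))
    _ ≤ (128 + 32 * C * 2 ^ E) * (P * (1 + Real.log N)) ^ 6 * W +
          (128 + 32 * C * 2 ^ E) * V ^ 6 * (1 + Real.log N) ^ E * N * (N / √(P : ℝ) + √(N : ℝ)) := by
        obtain ⟨D, hD⟩ : ∃ D : ℝ, D = (2 : ℝ) ^ E := ⟨_, rfl⟩
        obtain ⟨L, hL⟩ : ∃ L : ℝ, L = (1 + Real.log N) ^ E := ⟨_, rfl⟩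
        obtain ⟨R, hR⟩ : ∃ R : ℝ, R = N / √(P : ℝ) := ⟨_, rfl⟩
        obtain ⟨S, hS⟩ : ∃ S : ℝ, S = √(N : ℝ) := ⟨_, rfl⟩
        have hD0 : 0 < D := by rw [hD]; positivity
        have hL0 : 0 ≤ L := by rw [hL]; positivity
        have hR0 : 0 ≤ R := by rw [hR]; positivity
        have hS0 : 0 ≤ S := by rw [hS]; positivity
        rw [mul_pow 2 (1 + Real.log (N : ℝ)) E, ← hD, ← hL, ← hR, ← hS]
        have k1 : 0 ≤ 32 * C * D * ((P * (1 + Real.log N)) ^ 6 * W) := by positivity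
        have k2 : 0 ≤ 128 * (V ^ 6 * L * N * (R + S)) := by positivity
        have k3 : 0 ≤ C * V ^ 6 * N * D * L * S := by positivity
        nlinarith

end Pool.Agent.EU
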